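import Pool.Agent.R222.GH.All

/-!
# Morrey's problem for planar energies `(det A)^q g(K) + f(det A)`

Let `W` be an energy of a real `2 × 2` matrix whose values at the matrices with positive
determinant are `(s v)^q g(s / v) + f(s v)`, where `s ≥ v > 0` are the singular values, `q ≠ 0` is a
real number and `g, f` are arbitrary real functions; so `W` is the sum of an isotropic energy,
positively homogeneous of degree `2 q`, and of a function of the determinant.  If `W` is rank-one
convex on the matrices with positive determinant, then `W` is quasiconvex there: the Morrey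
inequality holds at every matrix with positive determinant and for every Lipschitz test map which
keeps the determinant positive almost everywhere and for which the positive part of the energy is
integrable.
-/

set_option autoImplicit false

namespace Pool.Agent.Results.MP_515557_an.HomogeneousPlusDeterminant

open MeasureTheory

/-- the matrix `F₀ + Dϑ(x)` -/
noncomputable def Grad (F₀ : Matrix (Fin 2) (Fin 2) ℝ) (ϑ : (Fin 2 → ℝ) → (Fin 2 → ℝ))
    (x : Fin 2 → ℝ) : Matrix (Fin 2) (Fin 2) ℝ :=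
  F₀ + LinearMap.toMatrix'
    ((fderiv ℝ ϑ x : (Fin 2 → ℝ) →L[ℝ] (Fin 2 → ℝ)) : (Fin 2 → ℝ) →ₗ[ℝ] (Fin 2 → ℝ))

/-- convexity along the segments in rank-one directions between matrices with positive
determinant -/
def RankOneConvexPos (W : Matrix (Fin 2) (Fin 2) ℝ → ℝ) : Prop :=
  ∀ F H : Matrix (Fin 2) (Fin 2) ℝ, H.rank = 1 → 0 < F.det → 0 < (F + H).det →
    ∀ t : ℝ, 0 ≤ t → t ≤ 1 → W ((1 - t) • F + t • (F + H)) ≤ (1 - t) * W F + t * W (F + H)

/-- the Morrey inequality at matrices `F₀` with positive determinant, for Lipschitz maps `ϑ`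
vanishing off a bounded open set `Ω` such that `det (F₀ + Dϑ) > 0` almost everywhere on `Ω` and the
positive part of `W(F₀ + Dϑ)` is integrable on `Ω` -/
def QuasiconvexPos (W : Matrix (Fin 2) (Fin 2) ℝ → ℝ) : Prop :=
  ∀ F₀ : Matrix (Fin 2) (Fin 2) ℝ, 0 < F₀.det → ∀ Ω : Set (Fin 2 → ℝ),
    IsOpen Ω → Bornology.IsBounded Ω →
    ∀ ϑ : (Fin 2 → ℝ) → (Fin 2 → ℝ), (∃ K, LipschitzWith K ϑ) → (∀ x, x ∉ Ω → ϑ x = 0) →
      (∀ᵐ x ∂(volume.restrict Ω), 0 < (Grad F₀ ϑ x).det) →
      ∫⁻ x in Ω, ENNReal.ofReal (W (Grad F₀ ϑ x)) ≠ ⊤ →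
      IntegrableOn (fun x => W (Grad F₀ ϑ x)) Ω ∧
        W F₀ * (volume Ω).toReal ≤ ∫ x in Ω, W (Grad F₀ ϑ x)

open scoped Matrix.Norms.L2Operator in
/-- Let `q ≠ 0` and `W(A) = (det A)^q g(‖A‖² / det A) + f(det A)` for all real `2 × 2` matrices `A`
with `det A > 0`, where `‖A‖` is the operator norm of `A` on the Euclidean plane and `g, f` are
arbitrary functions.  If `W` is rank-one convex on the matrices with positive determinant, then `W`
is quasiconvex there. -/
theorem result (q : ℝ) (hq : q ≠ 0) (g f : ℝ → ℝ) (W : Matrix (Fin 2) (Fin 2) ℝ → ℝ)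
    (hW : ∀ A : Matrix (Fin 2) (Fin 2) ℝ, 0 < A.det →
      W A = A.det ^ q * g (‖A‖ ^ 2 / A.det) + f A.det)
    (hR : RankOneConvexPos W) : QuasiconvexPos W :=
  fun F₀ h0 _ hΩ hb _ hϑ hz hpos hfin =>
    Pool.Agent.R222.GH.gl q hq g f W hW hR F₀ h0 ⟨hΩ, hb, hϑ, hz⟩ hpos hfin

end Pool.Agent.Results.MP_515557_an.HomogeneousPlusDeterminant
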