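import Pool.Agent.R222.VI.Fin

/-!
# Morrey's problem for planar energies with an additive volumetric-isochoric split

Let `W` be an energy of a real `2 × 2` matrix whose values at the matrices with positive
determinant are `h(s / v) + f(s v)`, where `s ≥ v > 0` are the singular values and `h, f` are
arbitrary real functions.  If `W` is rank-one convex on the matrices with positive determinant,
then `W` is quasiconvex there: the Morrey inequality holds at every matrix with positive
determinant and for every Lipschitz test map which keeps the determinant positive almost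
everywhere and for which the positive part of the energy is integrable.
-/

set_option autoImplicit false

namespace Pool.Agent.Results.MP_515557_an.VolumetricIsochoric

open MeasureTheory

/-- the matrix `F₀ + Dϑ(x)` -/
noncomputable def Grad (F₀ : Matrix (Fin 2) (Fin 2) ℝ) (ϑ : (Fin 2 → ℝ) → (Fin 2 → ℝ))
    (x : Fin 2 → ℝ) : Matrix (Fin 2) (Fin 2) ℝ :=
  F₀ + LinearMap.toMatrix'
    ((fderiv ℝ ϑ x : (Fin 2 → ℝ) →L[ℝ] (Fin 2 → ℝ)) : (Fin 2 → ℝ) →ₗ[ℝ] (Fin 2 → ℝ))

/-- convexity along the segments in rank-one directions between matrices with positive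
determinant -/
def RankOneConvexPos (W : Matrix (Fin 2) (Fin 2) ℝ → ℝ) : Prop :=
  ∀ F H : Matrix (Fin 2) (Fin 2) ℝ, H.rank = 1 → 0 < F.det → 0 < (F + H).det →
    ∀ t : ℝ, 0 ≤ t → t ≤ 1 → W ((1 - t) • F + t • (F + H)) ≤ (1 - t) * W F + t * W (F + H)

/-- the Morrey inequality at matrices `F₀` with positive determinant, for Lipschitz maps `ϑ`
vanishing off a bounded open set `Ω` such that `det (F₀ + Dϑ) > 0` almost everywhere on `Ω` and the
positive part of `W(F₀ + Dϑ)` is integrable on `Ω` -/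
def QuasiconvexPos (W : Matrix (Fin 2) (Fin 2) ℝ → ℝ) : Prop :=
  ∀ F₀ : Matrix (Fin 2) (Fin 2) ℝ, 0 < F₀.det → ∀ Ω : Set (Fin 2 → ℝ),
    IsOpen Ω → Bornology.IsBounded Ω →
    ∀ ϑ : (Fin 2 → ℝ) → (Fin 2 → ℝ), (∃ K, LipschitzWith K ϑ) → (∀ x, x ∉ Ω → ϑ x = 0) →
      (∀ᵐ x ∂(volume.restrict Ω), 0 < (Grad F₀ ϑ x).det) →
      ∫⁻ x in Ω, ENNReal.ofReal (W (Grad F₀ ϑ x)) ≠ ⊤ →
      IntegrableOn (fun x => W (Grad F₀ ϑ x)) Ω ∧
        W F₀ * (volume Ω).toReal ≤ ∫ x in Ω, W (Grad F₀ ϑ x)

open scoped Matrix.Norms.L2Operator in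
/-- Let `W(A) = h(‖A‖² / det A) + f(det A)` for all real `2 × 2` matrices `A` with `det A > 0`,
where `‖A‖` is the operator norm of `A` on the Euclidean plane and `h, f` are arbitrary functions.
If `W` is rank-one convex on the matrices with positive determinant, then `W` is quasiconvex
there. -/
theorem result (h f : ℝ → ℝ) (W : Matrix (Fin 2) (Fin 2) ℝ → ℝ)
    (hW : ∀ A : Matrix (Fin 2) (Fin 2) ℝ, 0 < A.det → W A = h (‖A‖ ^ 2 / A.det) + f A.det)
    (hR : RankOneConvexPos W) : QuasiconvexPos W :=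
  fun F₀ h0 _ hΩ hb _ hϑ hz hpos hfin =>
    Pool.Agent.R222.VI.vi_main h f W hW hR F₀ h0 ⟨hΩ, hb, hϑ, hz⟩ hpos hfin

end Pool.Agent.Results.MP_515557_an.VolumetricIsochoric
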